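import Mathlib

/-!
# Values of binary forms
-/

namespace Pool.Agent.H19.FO

open Polynomial

variable {R : Type*} [CommRing R]

/-- The value at `(s, t)` of the binary form of degree `d` with the dehomogenisation `P`. -/
noncomputable def val (P : R[X]) (d : ℕ) (s t : R) : R := MvPolynomial.eval ![s, t] (P.homogenize d)

lemma val_eq_sum (P : R[X]) (d : ℕ) (s t : R) :
    val P d s t = ∑ i ∈ Finset.range (d + 1), P.coeff i * s ^ i * t ^ (d - i) := by
  unfold val homogenize
  rw [map_sum, Finset.Nat.sum_antidiagonal_eq_sum_range_succ_mk]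
  refine Finset.sum_congr rfl fun k hk => ?_
  rw [MvPolynomial.eval_monomial]
  rw [Finsupp.update_eq_add_single, Finsupp.prod_add_index',
    Finsupp.prod_single_index, Finsupp.prod_single_index]
  · simp; ring
  all_goals simp [pow_add]

lemma val_mul {P Q : R[X]} {m n : ℕ} (hm : P.natDegree ≤ m) (hn : Q.natDegree ≤ n) (s t : R) :
    val (P * Q) (m + n) s t = val P m s t * val Q n s t := by
  unfold val
  rw [homogenize_mul P Q hm hn, map_mul]

lemma val_add (P Q : R[X]) (d : ℕ) (s t : R) : val (P + Q) d s t = val P d s t + val Q d s t := by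
  unfold val
  rw [homogenize_add, map_add]

lemma val_sub (P Q : R[X]) (d : ℕ) (s t : R) : val (P - Q) d s t = val P d s t - val Q d s t := by
  unfold val
  rw [homogenize_sub, map_sub]

lemma val_C_mul (c : R) (P : R[X]) (d : ℕ) (s t : R) : val (C c * P) d s t = c * val P d s t := by
  rw [val_eq_sum, val_eq_sum, Finset.mul_sum]
  refine Finset.sum_congr rfl fun i _ => ?_
  rw [coeff_C_mul]; ring

lemma exists_int_multiple (p : ℚ[X]) :
    ∃ (q : ℤ[X]) (D : ℤ), D ≠ 0 ∧ q.map (Int.castRingHom ℚ) = C (D : ℚ) * p := by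
  obtain ⟨b, hb, h⟩ := IsLocalization.integerNormalization_spec (nonZeroDivisors ℤ) p
  refine ⟨IsLocalization.integerNormalization (nonZeroDivisors ℤ) p, b, nonZeroDivisors.ne_zero hb, ?_⟩
  have h2 : (C (b : ℚ)) * p = b • p := by
    rw [zsmul_eq_mul]
    simp
  rw [h2]
  exact h

lemma val_one (d : ℕ) (s t : R) : val (1 : R[X]) d s t = t ^ d := by
  unfold val
  simp

lemma val_C (c : R) (d : ℕ) (s t : R) : val (C c) d s t = c * t ^ d := by
  unfold val
  simp

lemma val_pow {P : R[X]} {m : ℕ} (hm : P.natDegree ≤ m) (s t : R) (e : ℕ) :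
    val (P ^ e) (e * m) s t = val P m s t ^ e := by
  induction e with
  | zero => simp [val_one]
  | succ e ih =>
    rw [pow_succ, pow_succ, add_mul, one_mul, val_mul ?_ hm, ih]
    exact (natDegree_pow_le).trans (Nat.mul_le_mul_left _ hm)

lemma val_smul_smul (P : R[X]) (d : ℕ) (c s t : R) : val P d (c * s) (c * t) = c ^ d * val P d s t := by
  rw [val_eq_sum, val_eq_sum, Finset.mul_sum]
  refine Finset.sum_congr rfl fun i hi => ?_
  rw [Finset.mem_range] at hi
  rw [mul_pow, mul_pow]
  have : c ^ d = c ^ i * c ^ (d - i) := by rw [← pow_add]; congr 1; omega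
  rw [this]; ring

lemma map_val {S : Type*} [CommRing S] (f : R →+* S) (P : R[X]) (d : ℕ) (s t : R) :
    f (val P d s t) = val (P.map f) d (f s) (f t) := by
  rw [val_eq_sum, val_eq_sum, map_sum]
  refine Finset.sum_congr rfl fun i _ => ?_
  rw [map_mul, map_mul, map_pow, map_pow, coeff_map]

lemma val_of_ne_zero {K : Type*} [Field K] {P : K[X]} {d : ℕ} (hd : P.natDegree ≤ d) (s : K) {t : K}
    (ht : t ≠ 0) : val P d s t = P.eval (s / t) * t ^ d := by
  unfold val
  rw [eval_homogenize hd]
  · simp
  · simpa using ht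

lemma val_zero_right (P : R[X]) (d : ℕ) (s : R) : val P d s 0 = P.coeff d * s ^ d := by
  rw [val_eq_sum, Finset.sum_eq_single_of_mem d (Finset.self_mem_range_succ d)]
  · simp
  · intro i hi hid
    rw [Finset.mem_range] at hi
    rw [zero_pow (by omega)]; simp

lemma val_of_natDegree_le {P : R[X]} {n d : ℕ} (hn : P.natDegree ≤ n) (hd : n ≤ d) (s t : R) :
    val P d s t = t ^ (d - n) * val P n s t := by
  have h := val_mul (P := 1) (Q := P) (m := d - n) (n := n) (by simp) hn s t
  rw [one_mul, val_one] at h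
  rw [← h]; congr 1; omega

lemma continuous_val (P : ℝ[X]) (d : ℕ) : Continuous fun v : ℝ × ℝ => val P d v.1 v.2 := by
  simp only [val_eq_sum]
  fun_prop

end Pool.Agent.H19.FO
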