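import Pool.Agent.H19.FO.Hall

/-!
# Coprime binary forms of degrees `2 n` and `3 n`
-/

namespace Pool.Agent.H19.FO

open Polynomial

section
variable {f g : ℚ[X]} {n : ℕ}

/-- The Wronskian part. -/
noncomputable def VV (f g : ℚ[X]) : ℚ[X] := 3 * derivative f * g - 2 * f * derivative g

lemma wronskian (f g : ℚ[X]) :
    derivative (f ^ 3 - g ^ 2) * g ^ 2 - (f ^ 3 - g ^ 2) * derivative (g ^ 2) = f ^ 2 * g * VV f g := by
  have c3 : (C (3 : ℚ)) = (3 : ℚ[X]) := map_ofNat C 3
  have c2 : (C (2 : ℚ)) = (2 : ℚ[X]) := map_ofNat C 2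
  unfold VV
  simp only [derivative_sub, derivative_pow]
  simp only [Nat.cast_ofNat, c3, c2, Nat.add_one_sub_one, pow_one]
  ring

lemma VV_ne_zero (hn : 0 < n) (hmax : f.coeff (2 * n) ≠ 0 ∨ g.coeff (3 * n) ≠ 0) (hcop : IsCoprime f g) :
    VV f g ≠ 0 := by
  intro h
  have h1 : 3 * derivative f * g = 2 * f * derivative g := by
    unfold VV at h; linear_combination h
  have hconst : ∀ q : ℚ[X], derivative q = 0 → ∀ i, 0 < i → q.coeff i = 0 := by
    intro q hq i hi
    have := derivative_eq_zero.mp hq
    exact coeff_eq_zero_of_natDegree_lt (by omega)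
  have h2 : f ∣ derivative f := by
    have h3 : f ∣ derivative f * g := by
      refine ⟨C (2 / 3 : ℚ) * derivative g, ?_⟩
      have h4 : (C (3 : ℚ)) * (derivative f * g) = C (3 : ℚ) * (f * (C (2 / 3 : ℚ) * derivative g)) := by
        have e3 : (C (3 : ℚ)) = (3 : ℚ[X]) := map_ofNat C 3
        have e2 : (C (3 : ℚ)) * C (2 / 3 : ℚ) = (2 : ℚ[X]) := by
          rw [← C_mul, ← map_ofNat C 2]; norm_num
        linear_combination (exp := 1) h1 + (derivative f * g) * e3 - (f * derivative g) * e2
      exact mul_left_cancel₀ (by simp) h4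
    exact hcop.dvd_of_dvd_mul_right h3
  have h5 : derivative f = 0 := by
    by_contra h6
    have h7 := natDegree_le_of_dvd h2 h6
    have h8 : f.natDegree ≠ 0 := by
      intro h9
      exact h6 (derivative_eq_zero.mpr h9)
    have := natDegree_derivative_lt h8
    omega
  rw [h5] at h1
  simp only [mul_zero, zero_mul] at h1
  have h6 : f = 0 ∨ derivative g = 0 := by
    rcases mul_eq_zero.mp h1.symm with h7 | h7
    · rcases mul_eq_zero.mp h7 with h8 | h8
      · norm_num at h8
      · exact Or.inl h8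
    · exact Or.inr h7
  have hg : derivative g = 0 := by
    rcases h6 with h7 | h7
    · rw [h7, isCoprime_zero_left] at hcop
      exact derivative_eq_zero.mpr (natDegree_eq_zero_of_isUnit hcop)
    · exact h7
  rcases hmax with h7 | h7
  · exact h7 (hconst f h5 _ (by omega))
  · exact h7 (hconst g hg _ (by omega))

lemma natDegree_VV (hn : 0 < n) (hf : f.natDegree ≤ 2 * n) (hg : g.natDegree ≤ 3 * n) :
    (VV f g).natDegree ≤ 5 * n - 2 := by
  have h1 : (VV f g).natDegree ≤ 5 * n - 1 := by
    unfold VV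
    have hf' : (derivative f).natDegree ≤ 2 * n - 1 := (natDegree_derivative_le f).trans (by omega)
    have hg' : (derivative g).natDegree ≤ 3 * n - 1 := (natDegree_derivative_le g).trans (by omega)
    apply (natDegree_sub_le _ _).trans
    apply max_le
    · rw [mul_assoc]
      have : ((3 : ℚ[X])).natDegree = 0 := natDegree_ofNat 3
      calc (3 * (derivative f * g)).natDegree ≤ (3 : ℚ[X]).natDegree + ((derivative f).natDegree + g.natDegree) :=
            natDegree_mul_le.trans (by gcongr; exact natDegree_mul_le)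
        _ ≤ 5 * n - 1 := by omega
    · rw [mul_assoc]
      have : ((2 : ℚ[X])).natDegree = 0 := natDegree_ofNat 2
      calc (2 * (f * derivative g)).natDegree ≤ (2 : ℚ[X]).natDegree + (f.natDegree + (derivative g).natDegree) :=
            natDegree_mul_le.trans (by gcongr; exact natDegree_mul_le)
        _ ≤ 5 * n - 1 := by omega
  have h2 : (VV f g).coeff (5 * n - 1) = 0 := by
    unfold VV
    have hf' : (derivative f).natDegree ≤ 2 * n - 1 := (natDegree_derivative_le f).trans (by omega)
    have hg' : (derivative g).natDegree ≤ 3 * n - 1 := (natDegree_derivative_le g).trans (by omega)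
    have e1 : (derivative f * g).coeff (5 * n - 1) = (2 * n) * f.coeff (2 * n) * g.coeff (3 * n) := by
      have : 5 * n - 1 = (2 * n - 1) + 3 * n := by omega
      rw [this, coeff_mul_add_eq_of_natDegree_le hf' hg, coeff_derivative]
      have e : 2 * n - 1 + 1 = 2 * n := by omega
      have e' : (((2 * n - 1 : ℕ) : ℚ)) + 1 = 2 * n := by
        have : (((2 * n - 1 : ℕ) : ℚ)) + 1 = ((2 * n - 1 + 1 : ℕ) : ℚ) := by push_cast; ring
        rw [this, e]; push_cast; ring
      rw [e, e']; ring
    have e2 : (f * derivative g).coeff (5 * n - 1) = (3 * n) * f.coeff (2 * n) * g.coeff (3 * n) := by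
      have : 5 * n - 1 = 2 * n + (3 * n - 1) := by omega
      rw [this, coeff_mul_add_eq_of_natDegree_le hf hg', coeff_derivative]
      have e : 3 * n - 1 + 1 = 3 * n := by omega
      have e' : (((3 * n - 1 : ℕ) : ℚ)) + 1 = 3 * n := by
        have : (((3 * n - 1 : ℕ) : ℚ)) + 1 = ((3 * n - 1 + 1 : ℕ) : ℚ) := by push_cast; ring
        rw [this, e]; push_cast; ring
      rw [e, e']; ring
    have c3 : (3 : ℚ[X]) = C 3 := (map_ofNat C 3).symm
    have c2 : (2 : ℚ[X]) = C 2 := (map_ofNat C 2).symm
    rw [coeff_sub, mul_assoc, mul_assoc, c3, c2, coeff_C_mul, coeff_C_mul, e1, e2]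
    ring
  rcases Nat.lt_or_ge (5 * n - 2) (VV f g).natDegree with h3 | h3
  · exfalso
    have h4 : (VV f g).natDegree = 5 * n - 1 := by omega
    have h5 : (VV f g).leadingCoeff = 0 := by rw [leadingCoeff, h4, h2]
    rw [leadingCoeff_eq_zero] at h5
    rw [h5, natDegree_zero] at h3
    omega
  · exact h3

lemma diff_ne_zero (hn : 0 < n) (hmax : f.coeff (2 * n) ≠ 0 ∨ g.coeff (3 * n) ≠ 0) (hcop : IsCoprime f g) :
    f ^ 3 - g ^ 2 ≠ 0 := by
  intro h
  have hw := wronskian f g
  rw [h] at hw
  rw [derivative_zero, zero_mul, zero_mul, sub_zero] at hw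
  have hV := VV_ne_zero hn hmax hcop
  have h1 : f ^ 2 * g = 0 := by
    rcases mul_eq_zero.mp hw.symm with h2 | h2
    · exact h2
    · exact absurd h2 hV
  have h2 : f = 0 ∧ g = 0 := by
    rcases mul_eq_zero.mp h1 with h3 | h3
    · have hf : f = 0 := pow_eq_zero_iff (two_ne_zero) |>.mp h3
      rw [hf] at h
      refine ⟨hf, ?_⟩
      have : g ^ 2 = 0 := by linear_combination -h
      exact pow_eq_zero_iff (two_ne_zero) |>.mp this
    · rw [h3] at h
      refine ⟨?_, h3⟩
      have : f ^ 3 = 0 := by linear_combination h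
      exact pow_eq_zero_iff (three_ne_zero) |>.mp this
  rw [h2.1, h2.2, isCoprime_zero_left] at hcop
  exact not_isUnit_zero hcop

/-- The condition of `hall_general` is satisfied by all pairs of coprime forms. -/
lemma mildForm_of_coprime (hn : 0 < n) (hf : f.natDegree ≤ 2 * n) (hg : g.natDegree ≤ 3 * n)
    (hmax : f.coeff (2 * n) ≠ 0 ∨ g.coeff (3 * n) ≠ 0) (hcop : IsCoprime f g) :
    MildForm (f ^ 3 - g ^ 2) (6 * n) := by
  have hV := VV_ne_zero hn hmax hcop
  have hVd := natDegree_VV hn hf hg
  have hc := diff_ne_zero hn hmax hcop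
  set c := f ^ 3 - g ^ 2 with hcdef
  have hw := wronskian f g
  rw [← hcdef] at hw
  constructor
  · -- infinity
    by_contra hcon
    have h1 : c.natDegree < n := by omega
    -- then the leading coefficients cancel
    have hcoef : c.coeff (6 * n) = f.coeff (2 * n) ^ 3 - g.coeff (3 * n) ^ 2 := by
      rw [hcdef, coeff_sub]
      have e1 : (f ^ 3).coeff (6 * n) = f.coeff (2 * n) ^ 3 := by
        have : 6 * n = 3 * (2 * n) := by ring
        rw [this, coeff_pow_of_natDegree_le hf]
      have e2 : (g ^ 2).coeff (6 * n) = g.coeff (3 * n) ^ 2 := by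
        have : 6 * n = 2 * (3 * n) := by ring
        rw [this, coeff_pow_of_natDegree_le hg]
      rw [e1, e2]
    rw [coeff_eq_zero_of_natDegree_lt (by omega)] at hcoef
    have hf0 : f.coeff (2 * n) ≠ 0 := by
      intro h2
      rcases hmax with h3 | h3
      · exact h3 h2
      · rw [h2] at hcoef
        apply h3
        have : g.coeff (3 * n) ^ 2 = 0 := by linear_combination hcoef
        exact pow_eq_zero_iff (two_ne_zero) |>.mp this
    have hg0 : g.coeff (3 * n) ≠ 0 := by
      intro h2
      rw [h2] at hcoef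
      apply hf0
      have : f.coeff (2 * n) ^ 3 = 0 := by linear_combination -hcoef
      exact pow_eq_zero_iff (three_ne_zero) |>.mp this
    have hfd : f.natDegree = 2 * n := le_antisymm hf (le_natDegree_of_ne_zero hf0)
    have hgd : g.natDegree = 3 * n := le_antisymm hg (le_natDegree_of_ne_zero hg0)
    have hf00 : f ≠ 0 := by rintro rfl; simp at hf0
    have hg00 : g ≠ 0 := by rintro rfl; simp at hg0
    have h2 : (f ^ 2 * g * VV f g).natDegree = 2 * (2 * n) + 3 * n + (VV f g).natDegree := by
      rw [natDegree_mul (mul_ne_zero (pow_ne_zero _ hf00) hg00) hV,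
        natDegree_mul (pow_ne_zero _ hf00) hg00, natDegree_pow, hfd, hgd]
    rw [← hw] at h2
    have h3 : (derivative c * g ^ 2 - c * derivative (g ^ 2)).natDegree ≤ c.natDegree + (6 * n) := by
      have hg2 : (g ^ 2).natDegree ≤ 6 * n := natDegree_pow_le.trans (by omega)
      apply (natDegree_sub_le _ _).trans
      apply max_le
      · apply natDegree_mul_le.trans
        have := natDegree_derivative_le c
        omega
      · apply natDegree_mul_le.trans
        have := natDegree_derivative_le (g ^ 2)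
        omega
    omega
  · intro p hp _ e hpe
    have hm : 0 < p.natDegree := hp.natDegree_pos
    set m := p.natDegree with hmd
    have key : e ≠ 0 → m * (e - 1) ≤ 5 * n - 2 := by
      intro he
      have hpc : p ∣ c := (dvd_pow_self p he).trans hpe
      have hpf : IsCoprime p f := by
        rw [hp.coprime_iff_not_dvd]
        intro h1
        have h2 : p ∣ g ^ 2 := by
          have h3 : p ∣ f ^ 3 - c := dvd_sub (dvd_pow h1 (by norm_num)) hpc
          have h4 : f ^ 3 - c = g ^ 2 := by rw [hcdef]; ring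
          rw [h4] at h3; exact h3
        have h5 := hp.prime.dvd_of_dvd_pow h2
        exact hp.not_isUnit (hcop.isUnit_of_dvd' h1 h5)
      have hpg : IsCoprime p g := by
        rw [hp.coprime_iff_not_dvd]
        intro h1
        have h2 : p ∣ f ^ 3 := by
          have h3 : p ∣ c + g ^ 2 := dvd_add hpc (dvd_pow h1 (by norm_num))
          have h4 : c + g ^ 2 = f ^ 3 := by rw [hcdef]; ring
          rw [h4] at h3; exact h3
        have h5 := hp.prime.dvd_of_dvd_pow h2
        exact hp.not_isUnit (hcop.isUnit_of_dvd' h5 h1)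
      have h6 : p ^ (e - 1) ∣ f ^ 2 * g * VV f g := by
        rw [← hw]
        apply dvd_sub
        · apply Dvd.dvd.mul_right
          obtain ⟨q, hq⟩ := hpe
          rw [hq, derivative_mul, derivative_pow]
          apply dvd_add
          · apply Dvd.dvd.mul_right
            apply Dvd.dvd.mul_right
            exact Dvd.dvd.mul_left (dvd_refl _) _
          · apply Dvd.dvd.mul_right
            exact pow_dvd_pow p (by omega)
        · apply Dvd.dvd.mul_right
          exact (pow_dvd_pow p (by omega)).trans hpe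
      have h7 : IsCoprime (p ^ (e - 1)) (f ^ 2 * g) :=
        ((hpf.pow_right (n := 2)).mul_right hpg).pow_left
      have h8 : p ^ (e - 1) ∣ VV f g := h7.dvd_of_dvd_mul_left h6
      have h9 := natDegree_le_of_dvd h8 hV
      rw [natDegree_pow] at h9
      calc m * (e - 1) = (e - 1) * m := mul_comm _ _
        _ ≤ (VV f g).natDegree := h9
        _ ≤ _ := hVd
    rcases Nat.eq_zero_or_pos e with he | he
    · rw [he]
      exact ⟨fun _ => by simp, fun _ h => absurd rfl h⟩
    · have hk := key he.ne'
      obtain ⟨r, rfl⟩ : ∃ r, e = r + 1 := ⟨e - 1, by omega⟩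
      simp only [Nat.add_sub_cancel] at hk
      refine ⟨fun h1 => ?_, fun h1 _ => ?_⟩
      · have : m = 1 ∨ m = 2 := by omega
        rcases this with h2 | h2
        · rw [h2] at hk ⊢; omega
        · rw [h2] at hk ⊢; omega
      · have : 3 * r ≤ m * r := Nat.mul_le_mul_right r h1
        omega

end

/-- **Hall's inequality for the values of coprime binary forms.** -/
theorem hall_forms {f g : ℤ[X]} {n : ℕ} (hn : 0 < n) (hf : f.natDegree ≤ 2 * n) (hg : g.natDegree ≤ 3 * n)
    (hmax : f.coeff (2 * n) ≠ 0 ∨ g.coeff (3 * n) ≠ 0) (hcop : IsCoprime (ra f) (ra g)) :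
    ∃ C : ℝ, 0 < C ∧ ∀ x y k s t : ℤ, k ≠ 0 → y ^ 2 = x ^ 3 + k → ¬ (s = 0 ∧ t = 0) →
      x ^ 3 * val g (3 * n) s t ^ 2 = y ^ 2 * val f (2 * n) s t ^ 3 →
        max |(x : ℝ)| |(y : ℝ)| ≤ C * |(k : ℝ)| ^ 3 := by
  have hmax' : (ra f).coeff (2 * n) ≠ 0 ∨ (ra g).coeff (3 * n) ≠ 0 := by
    simpa [ra] using hmax
  have hra : ra (f ^ 3 - g ^ 2) = ra f ^ 3 - ra g ^ 2 := by
    unfold ra; simp
  have hf3 : (f ^ 3).natDegree ≤ 6 * n := natDegree_pow_le.trans (by omega)
  have hg2 : (g ^ 2).natDegree ≤ 6 * n := natDegree_pow_le.trans (by omega)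
  have hcoef : (f ^ 3).coeff (6 * n) = f.coeff (2 * n) ^ 3 := by
    have : 6 * n = 3 * (2 * n) := by ring
    rw [this, coeff_pow_of_natDegree_le hf]
  have hcoeg : (g ^ 2).coeff (6 * n) = g.coeff (3 * n) ^ 2 := by
    have : 6 * n = 2 * (3 * n) := by ring
    rw [this, coeff_pow_of_natDegree_le hg]
  have h0 : f ^ 3 - g ^ 2 ≠ 0 := by
    intro h
    have := diff_ne_zero (f := ra f) (g := ra g) hn hmax' hcop
    rw [← hra, h] at this
    simp [ra] at this
  obtain ⟨C, hC, h⟩ := hall_general (A := f ^ 3) (B := f ^ 3 - g ^ 2) (d := 6 * n) hf3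
    ((natDegree_sub_le _ _).trans (max_le hf3 hg2))
    (by
      rw [coeff_sub, hcoef, hcoeg]
      by_cases h1 : f.coeff (2 * n) = 0
      · right
        rcases hmax with h2 | h2
        · exact absurd h1 h2
        · rw [h1]; simpa using h2
      · left; exact pow_ne_zero _ h1)
    (by
      rw [hra]
      unfold ra
      rw [Polynomial.map_pow]
      have h1 : IsCoprime ((f.map (Int.castRingHom ℚ)) ^ 3) ((g.map (Int.castRingHom ℚ)) ^ 2) := hcop.pow
      have h2 := h1.neg_right.add_mul_left_right 1
      have e : (f.map (Int.castRingHom ℚ)) ^ 3 - (g.map (Int.castRingHom ℚ)) ^ 2 =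
        -(g.map (Int.castRingHom ℚ)) ^ 2 + (f.map (Int.castRingHom ℚ)) ^ 3 * 1 := by ring
      rw [e]; exact h2)
    h0 (by
      rw [hra]
      exact mildForm_of_coprime hn (natDegree_map_le.trans hf) (natDegree_map_le.trans hg) hmax' hcop)
  refine ⟨C, hC, fun x y k s t hk hxy hst hx => h x y k s t hk hxy hst ?_⟩
  have e1 : val (f ^ 3) (6 * n) s t = val f (2 * n) s t ^ 3 := by
    have := val_pow hf s t 3
    rw [← this]; congr 1; ring
  have e2 : val (g ^ 2) (6 * n) s t = val g (3 * n) s t ^ 2 := by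
    have := val_pow hg s t 2
    rw [← this]; congr 1; ring
  rw [val_sub, e1, e2]
  have hk' : k = y ^ 2 - x ^ 3 := by linarith
  rw [hk']
  linear_combination -hx

end Pool.Agent.H19.FO
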