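import Pool.Agent.H19.FO.Key

/-!
# Hall's inequality along rational curves
-/

namespace Pool.Agent.H19.FO

open Polynomial

/-- The base change of an integral polynomial to `ℚ`. -/
noncomputable abbrev ra (P : ℤ[X]) : ℚ[X] := P.map (Int.castRingHom ℚ)

lemma split_gcd (a b : ℤ) (h : ¬ (a = 0 ∧ b = 0)) :
    ∃ g a' b' : ℤ, g ≠ 0 ∧ a = g * a' ∧ b = g * b' ∧ IsCoprime a' b' := by
  have h0 : (Int.gcd a b : ℤ) ≠ 0 := by
    intro h1
    exact h (Int.gcd_eq_zero_iff.mp (by exact_mod_cast h1))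
  obtain ⟨u, v, huv⟩ : ∃ u v : ℤ, (Int.gcd a b : ℤ) = a * u + b * v := ⟨_, _, Int.gcd_eq_gcd_ab a b⟩
  obtain ⟨a', ha'⟩ : (Int.gcd a b : ℤ) ∣ a := Int.gcd_dvd_left ..
  obtain ⟨b', hb'⟩ : (Int.gcd a b : ℤ) ∣ b := Int.gcd_dvd_right ..
  generalize (Int.gcd a b : ℤ) = g at *
  refine ⟨g, a', b', h0, ha', hb', u, v, ?_⟩
  apply mul_left_cancel₀ h0
  linear_combination -huv - u * ha' - v * hb'

lemma exists_bezout {A B : ℤ[X]} (h : IsCoprime (ra A) (ra B)) :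
    ∃ (U V : ℤ[X]) (R : ℤ), R ≠ 0 ∧ U * A + V * B = C R := by
  obtain ⟨u, v, huv⟩ := h
  obtain ⟨U, D, hD, hU⟩ := exists_int_multiple u
  obtain ⟨V, E, hE, hV⟩ := exists_int_multiple v
  refine ⟨C E * U, C D * V, D * E, mul_ne_zero hD hE, ?_⟩
  apply Polynomial.map_injective (Int.castRingHom ℚ) (RingHom.injective_int _)
  simp only [Polynomial.map_add, Polynomial.map_mul, Polynomial.map_C]
  rw [hU, hV]
  simp only [eq_intCast]
  push_cast
  rw [C_mul]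
  linear_combination (C (D : ℚ) * C (E : ℚ)) * huv

lemma val_eq_add (P : ℤ[X]) (d : ℕ) (s t : ℤ) : ∃ M : ℤ, val P d s t = P.coeff d * s ^ d + t * M := by
  rw [val_eq_sum, Finset.sum_range_succ]
  have h : t ∣ ∑ i ∈ Finset.range d, P.coeff i * s ^ i * t ^ (d - i) := by
    refine Finset.dvd_sum fun i hi => ?_
    rw [Finset.mem_range] at hi
    exact Dvd.dvd.mul_left (dvd_pow_self t (by omega)) _
  obtain ⟨M, hM⟩ := h
  exact ⟨M, by rw [hM]; simp; ring⟩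

lemma dvd_of_coeff {P : ℤ[X]} {d N : ℕ} {R s t g : ℤ} (hst : IsCoprime s t) (h1 : g ∣ R * t ^ N)
    (h2 : g ∣ val P d s t) : g ∣ R * P.coeff d ^ N := by
  obtain ⟨M, hM⟩ := val_eq_add P d s t
  have h3 : g ∣ R * (P.coeff d * s ^ d) ^ N := by
    have h4 : g ∣ P.coeff d * s ^ d - (-(t * M)) := by
      rw [sub_neg_eq_add, ← hM]; exact h2
    have h5 : g ∣ (P.coeff d * s ^ d) ^ N - (-(t * M)) ^ N := h4.trans (sub_dvd_pow_sub_pow _ _ N)
    have h6 : g ∣ R * (-(t * M)) ^ N := by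
      have : R * (-(t * M)) ^ N = R * t ^ N * (-M) ^ N := by
        rw [show -(t * M) = t * (-M) by ring, mul_pow]; ring
      rw [this]; exact Dvd.dvd.mul_right h1 _
    have h7 : g ∣ R * ((P.coeff d * s ^ d) ^ N - (-(t * M)) ^ N) := Dvd.dvd.mul_left h5 _
    have h8 := dvd_add h7 h6
    have e : R * ((P.coeff d * s ^ d) ^ N - (-(t * M)) ^ N) + R * (-(t * M)) ^ N = R * (P.coeff d * s ^ d) ^ N := by ring
    rw [e] at h8; exact h8
  have h9 : g ∣ (R * P.coeff d ^ N) * s ^ (d * N) := by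
    have : R * (P.coeff d * s ^ d) ^ N = (R * P.coeff d ^ N) * s ^ (d * N) := by
      rw [mul_pow, ← pow_mul]; ring
    rw [← this]; exact h3
  have h10 : g ∣ (R * P.coeff d ^ N) * t ^ N := by
    have : (R * P.coeff d ^ N) * t ^ N = (R * t ^ N) * P.coeff d ^ N := by ring
    rw [this]; exact Dvd.dvd.mul_right h1 _
  obtain ⟨a, b, hab⟩ : IsCoprime (s ^ (d * N)) (t ^ N) := hst.pow
  have h11 : R * P.coeff d ^ N = a * ((R * P.coeff d ^ N) * s ^ (d * N)) + b * ((R * P.coeff d ^ N) * t ^ N) := by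
    linear_combination (-(R * P.coeff d ^ N)) * hab
  rw [h11]
  exact dvd_add (Dvd.dvd.mul_left h9 _) (Dvd.dvd.mul_left h10 _)

/-- Common divisors of the values of two coprime forms at coprime integers. -/
lemma common_divisor {A B : ℤ[X]} {d : ℕ} (hA : A.natDegree ≤ d) (hB : B.natDegree ≤ d)
    (hmax : A.coeff d ≠ 0 ∨ B.coeff d ≠ 0) (hcop : IsCoprime (ra A) (ra B)) :
    ∃ T : ℤ, T ≠ 0 ∧ ∀ s t : ℤ, IsCoprime s t → ∀ g : ℤ, g ∣ val A d s t → g ∣ val B d s t → g ∣ T := by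
  obtain ⟨U, V, R, hR, hUV⟩ := exists_bezout hcop
  set n := max U.natDegree V.natDegree with hn
  have hg : ∀ s t g : ℤ, g ∣ val A d s t → g ∣ val B d s t → g ∣ R * t ^ (n + d) := by
    intro s t g h1 h2
    have h3 : R * t ^ (n + d) = val U n s t * val A d s t + val V n s t * val B d s t := by
      rw [← val_mul (le_max_left _ _) hA, ← val_mul (le_max_right _ _) hB, ← val_add, hUV, val_C]
    rw [h3]
    exact dvd_add (Dvd.dvd.mul_left h1 _) (Dvd.dvd.mul_left h2 _)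
  rcases hmax with h | h
  · refine ⟨R * A.coeff d ^ (n + d), mul_ne_zero hR (pow_ne_zero _ h), fun s t hst g h1 h2 => ?_⟩
    exact dvd_of_coeff hst (hg s t g h1 h2) h1
  · refine ⟨R * B.coeff d ^ (n + d), mul_ne_zero hR (pow_ne_zero _ h), fun s t hst g h1 h2 => ?_⟩
    exact dvd_of_coeff hst (hg s t g h1 h2) h2

lemma upper (P : ℤ[X]) (d : ℕ) : ∃ M : ℝ, 0 < M ∧ ∀ s t : ℤ, |((val P d s t : ℤ) : ℝ)| ≤ M * ht s t ^ d := by
  refine ⟨∑ i ∈ Finset.range (d + 1), |(P.coeff i : ℝ)| + 1, by positivity, fun s t => ?_⟩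
  have hH : 0 ≤ ht s t := le_max_of_le_left (abs_nonneg _)
  rw [val_eq_sum]
  push_cast
  refine (Finset.abs_sum_le_sum_abs _ _).trans ?_
  have h1 : ∀ i ∈ Finset.range (d + 1), |(P.coeff i : ℝ) * (s : ℝ) ^ i * (t : ℝ) ^ (d - i)| ≤
      |(P.coeff i : ℝ)| * ht s t ^ d := by
    intro i hi
    rw [Finset.mem_range] at hi
    rw [abs_mul, abs_mul, abs_pow, abs_pow, mul_assoc]
    apply mul_le_mul_of_nonneg_left _ (abs_nonneg _)
    have h2 : ht s t ^ d = ht s t ^ i * ht s t ^ (d - i) := by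
      rw [← pow_add]; congr 1; omega
    rw [h2]
    apply mul_le_mul (pow_le_pow_left₀ (abs_nonneg _) (le_max_left _ _) _)
      (pow_le_pow_left₀ (abs_nonneg _) (le_max_right _ _) _) (by positivity) (by positivity)
  refine (Finset.sum_le_sum h1).trans ?_
  rw [← Finset.sum_mul]
  apply mul_le_mul_of_nonneg_right _ (by positivity)
  linarith

/-- The main bound for coprime parameters. -/
lemma hall_coprime {A B : ℤ[X]} {d : ℕ} (hA : A.natDegree ≤ d) (hB : B.natDegree ≤ d)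
    (hmax : A.coeff d ≠ 0 ∨ B.coeff d ≠ 0) (hcop : IsCoprime (ra A) (ra B)) (hB0 : B ≠ 0)
    (hM : MildForm (ra B) d) :
    ∃ C : ℝ, 0 < C ∧ ∀ x k s t : ℤ, k ≠ 0 → IsCoprime s t →
      x ^ 3 * val B d s t = -k * val A d s t → |(x : ℝ)| ^ 3 ≤ C * |(k : ℝ)| ^ 6 := by
  obtain ⟨T, hT, hTd⟩ := common_divisor hA hB hmax hcop
  have hB0' : ra B ≠ 0 := by
    rw [Ne, Polynomial.map_eq_zero_iff (RingHom.injective_int _)]; exact hB0
  obtain ⟨a₀, ha₀, hkey⟩ := key hB0' (natDegree_map_le.trans hB) hM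
  obtain ⟨M, hM0, hup⟩ := upper A d
  have hTr : (0 : ℝ) < |(T : ℝ)| := abs_pos.mpr (by exact_mod_cast hT)
  refine ⟨M / a₀ * |(T : ℝ)| ^ 5, by positivity, ?_⟩
  intro x k s t hk hst hx
  have hst0 : ¬ (s = 0 ∧ t = 0) := by
    rintro ⟨rfl, rfl⟩
    obtain ⟨a, b, hab⟩ := hst
    simp at hab
  set a := val A d s t with ha
  set b := val B d s t with hb
  have hb0 : b ≠ 0 := by
    intro h0
    have ha0 : a = 0 := by
      rw [h0, mul_zero] at hx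
      have := mul_eq_zero.mp hx.symm
      rcases this with h1 | h1
      · exact absurd (neg_eq_zero.mp h1) hk
      · exact h1
    have := hTd s t hst 0 (by rw [← ha, ha0]) (by rw [← hb, h0])
    exact hT (zero_dvd_iff.mp this)
  -- b divides T k
  have hbk : |(b : ℝ)| ≤ |(T : ℝ)| * |(k : ℝ)| := by
    obtain ⟨g, a', b', hg0, ha', hb', hcop'⟩ := split_gcd a b (fun h => hb0 h.2)
    have hgT : g ∣ T := hTd s t hst g ⟨a', ha'⟩ ⟨b', hb'⟩
    have h1 : x ^ 3 * b' = -k * a' := by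
      apply mul_left_cancel₀ hg0
      linear_combination hx - x ^ 3 * hb' - k * ha'
    have h2 : b' ∣ k := by
      have h3 : b' ∣ -k * a' := ⟨x ^ 3, by rw [← h1]; ring⟩
      have h4 : b' ∣ -k := hcop'.symm.dvd_of_dvd_mul_right h3
      exact (dvd_neg.mp h4)
    have h3 : b ∣ T * k := by
      rw [hb']; exact mul_dvd_mul hgT h2
    have h4 : |b| ≤ |T * k| := Int.le_of_dvd (abs_pos.mpr (mul_ne_zero hT hk)) ((abs_dvd_abs _ _).mpr h3)
    rw [abs_mul] at h4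
    exact_mod_cast h4
  have hmapval : ((b : ℤ) : ℝ) = val (re (ra B)) d (s : ℝ) (t : ℝ) := by
    have h1 := map_val (Int.castRingHom ℝ) B d s t
    have h2 : re (ra B) = B.map (Int.castRingHom ℝ) := by
      unfold re ra
      rw [Polynomial.map_map]
      congr 1
    rw [h2]
    simpa using h1
  have hk1 := hkey s t hst0 (by rw [← hmapval]; exact_mod_cast hb0)
  rw [← hmapval] at hk1
  have hua := hup s t
  rw [← ha] at hua
  have hbr : (0 : ℝ) < |(b : ℝ)| := abs_pos.mpr (by exact_mod_cast hb0)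
  have hx' : |(x : ℝ)| ^ 3 * |(b : ℝ)| = |(k : ℝ)| * |(a : ℝ)| := by
    have h1 : |((x ^ 3 * b : ℤ) : ℝ)| = |((-k * a : ℤ) : ℝ)| := by rw [hx]
    push_cast at h1
    rw [abs_mul, abs_mul, abs_neg, abs_pow] at h1
    exact h1
  have h3 : |(x : ℝ)| ^ 3 * |(b : ℝ)| ≤ (|(k : ℝ)| * (M / a₀) * |(b : ℝ)| ^ 5) * |(b : ℝ)| := by
    rw [hx']
    have h4 : |(a : ℝ)| ≤ M / a₀ * |(b : ℝ)| ^ 6 := by
      refine hua.trans ?_
      rw [div_mul_eq_mul_div, le_div_iff₀ ha₀]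
      calc M * ht s t ^ d * a₀ = M * (a₀ * ht s t ^ d) := by ring
        _ ≤ M * |(b : ℝ)| ^ 6 := mul_le_mul_of_nonneg_left hk1 hM0.le
    calc |(k : ℝ)| * |(a : ℝ)| ≤ |(k : ℝ)| * (M / a₀ * |(b : ℝ)| ^ 6) :=
          mul_le_mul_of_nonneg_left h4 (abs_nonneg _)
      _ = _ := by ring
  have h5 := le_of_mul_le_mul_right h3 hbr
  calc |(x : ℝ)| ^ 3 ≤ |(k : ℝ)| * (M / a₀) * |(b : ℝ)| ^ 5 := h5
    _ ≤ |(k : ℝ)| * (M / a₀) * (|(T : ℝ)| * |(k : ℝ)|) ^ 5 := by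
        apply mul_le_mul_of_nonneg_left (pow_le_pow_left₀ (abs_nonneg _) hbk 5) (by positivity)
    _ = _ := by ring

/-- **Hall's inequality along a rational curve in the line of the `j`-invariants.** -/
theorem hall_general {A B : ℤ[X]} {d : ℕ} (hA : A.natDegree ≤ d) (hB : B.natDegree ≤ d)
    (hmax : A.coeff d ≠ 0 ∨ B.coeff d ≠ 0) (hcop : IsCoprime (ra A) (ra B)) (hB0 : B ≠ 0)
    (hM : MildForm (ra B) d) :
    ∃ C : ℝ, 0 < C ∧ ∀ x y k s t : ℤ, k ≠ 0 → y ^ 2 = x ^ 3 + k → ¬ (s = 0 ∧ t = 0) →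
      x ^ 3 * val B d s t = -k * val A d s t → max |(x : ℝ)| |(y : ℝ)| ≤ C * |(k : ℝ)| ^ 3 := by
  obtain ⟨C₁, hC₁, h⟩ := hall_coprime hA hB hmax hcop hB0 hM
  refine ⟨C₁ + 1, by positivity, ?_⟩
  intro x y k s t hk hxy hst hx
  have hk1 : (1 : ℝ) ≤ |(k : ℝ)| := by
    have := Int.one_le_abs hk
    exact_mod_cast this
  -- reduction to coprime parameters
  have hx3 : |(x : ℝ)| ^ 3 ≤ C₁ * |(k : ℝ)| ^ 6 := by
    obtain ⟨g, s', t', hg0, hs', ht', hcop'⟩ := split_gcd s t hst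
    apply h x k s' t' hk hcop'
    have e1 : val A d s t = g ^ d * val A d s' t' := by
      rw [hs', ht']; exact val_smul_smul A d g s' t'
    have e2 : val B d s t = g ^ d * val B d s' t' := by
      rw [hs', ht']; exact val_smul_smul B d g s' t'
    rw [e1, e2] at hx
    apply mul_left_cancel₀ (pow_ne_zero d hg0)
    linear_combination hx
  have hk6 : |(k : ℝ)| ≤ |(k : ℝ)| ^ 6 := by
    calc |(k : ℝ)| = |(k : ℝ)| ^ 1 := (pow_one _).symm
      _ ≤ |(k : ℝ)| ^ 6 := pow_le_pow_right₀ hk1 (by norm_num)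
  have hk6p : (0 : ℝ) < |(k : ℝ)| ^ 6 := by positivity
  apply max_le
  · by_contra hlt
    push Not at hlt
    have h1 : ((C₁ + 1) * |(k : ℝ)| ^ 3) ^ 3 < |(x : ℝ)| ^ 3 := pow_lt_pow_left₀ hlt (by positivity) (by norm_num)
    have h2 : C₁ * |(k : ℝ)| ^ 6 ≤ ((C₁ + 1) * |(k : ℝ)| ^ 3) ^ 3 := by
      have h3 : |(k : ℝ)| ^ 6 ≤ |(k : ℝ)| ^ 9 := pow_le_pow_right₀ hk1 (by norm_num)
      have h4 : C₁ ≤ (C₁ + 1) ^ 3 := by nlinarith [sq_nonneg C₁, pow_pos hC₁ 3, pow_pos hC₁ 2]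
      calc C₁ * |(k : ℝ)| ^ 6 ≤ (C₁ + 1) ^ 3 * |(k : ℝ)| ^ 9 := by
            apply mul_le_mul h4 h3 (by positivity) (by positivity)
        _ = _ := by ring
    linarith
  · by_contra hlt
    push Not at hlt
    have h1 : ((C₁ + 1) * |(k : ℝ)| ^ 3) ^ 2 < |(y : ℝ)| ^ 2 := pow_lt_pow_left₀ hlt (by positivity) (by norm_num)
    have h2 : |(y : ℝ)| ^ 2 ≤ |(x : ℝ)| ^ 3 + |(k : ℝ)| := by
      have h3 : (y : ℝ) ^ 2 = (x : ℝ) ^ 3 + k := by exact_mod_cast hxy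
      rw [sq_abs, h3, ← abs_pow]
      exact add_le_add (le_abs_self _) (le_abs_self _)
    have h3 : C₁ * |(k : ℝ)| ^ 6 + |(k : ℝ)| ^ 6 ≤ ((C₁ + 1) * |(k : ℝ)| ^ 3) ^ 2 := by
      have h4 : C₁ + 1 ≤ (C₁ + 1) ^ 2 := by nlinarith
      calc C₁ * |(k : ℝ)| ^ 6 + |(k : ℝ)| ^ 6 = (C₁ + 1) * |(k : ℝ)| ^ 6 := by ring
        _ ≤ (C₁ + 1) ^ 2 * |(k : ℝ)| ^ 6 := mul_le_mul_of_nonneg_right h4 hk6p.le
        _ = _ := by ring
    linarith

end Pool.Agent.H19.FO
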