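import Pool.Agent.H19.FO.Local

/-!
# The key inequality for mild forms
-/

namespace Pool.Agent.H19.FO

open Polynomial

/-- The condition on the real zeros of the form of degree `d` with dehomogenisation `B`. -/
def MildForm (B : ℚ[X]) (d : ℕ) : Prop :=
  6 * (d - B.natDegree) ≤ 5 * d ∧
    ∀ p : ℚ[X], Irreducible p → (∃ c : ℝ, aeval c p = 0) → ∀ e : ℕ, p ^ e ∣ B → Mild d p.natDegree e

/-- The base change to `ℝ`. -/
noncomputable abbrev re (P : ℚ[X]) : ℝ[X] := P.map (algebraMap ℚ ℝ)

lemma six_pow_le {δ a x : ℝ} {H : ℝ} (hH : 1 ≤ H) (hδ : 0 ≤ δ) {n d : ℕ} (hn : d ≤ 6 * n)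
    (h : δ * H ^ n ≤ x) (ha : a = δ ^ 6) : a * H ^ d ≤ x ^ 6 := by
  have h0 : 0 ≤ δ * H ^ n := by positivity
  calc a * H ^ d ≤ δ ^ 6 * H ^ (6 * n) := by
        rw [ha]
        exact mul_le_mul_of_nonneg_left (pow_le_pow_right₀ hH hn) (by positivity)
    _ = (δ * H ^ n) ^ 6 := by rw [mul_pow, ← pow_mul, mul_comm n 6]
    _ ≤ x ^ 6 := pow_le_pow_left₀ h0 h 6

theorem key_local {B : ℚ[X]} (hB : B ≠ 0) {d : ℕ} (hd : B.natDegree ≤ d) (hM : MildForm B d)
    {v₀ : ℝ × ℝ} (hv : v₀ ∈ KK) :
    ∃ a : ℝ, 0 < a ∧ ∃ U ∈ nhds v₀, ∀ s t : ℤ, ¬ (s = 0 ∧ t = 0) → nv s t ∈ U →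
      val (re B) d (s : ℝ) (t : ℝ) ≠ 0 → a * ht s t ^ d ≤ |val (re B) d (s : ℝ) (t : ℝ)| ^ 6 := by
  by_cases h0 : val (re B) d v₀.1 v₀.2 ≠ 0
  · obtain ⟨δ, hδ, U, hU, h⟩ := lower_near (re B) d h0
    refine ⟨δ ^ 6, by positivity, U, hU, fun s t hst hs _ => ?_⟩
    exact six_pow_le (ht_ge_one hst) hδ.le (by omega) (h s t hst hs) rfl
  push Not at h0
  have hvK : max |v₀.1| |v₀.2| = 1 := hv
  by_cases hv2 : v₀.2 = 0
  · -- infinity
    have hv1 : v₀.1 ≠ 0 := by
      intro h1
      rw [h1, hv2] at hvK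
      norm_num at hvK
    set n := B.natDegree with hn
    have hlt : n < d := by
      rcases lt_or_eq_of_le hd with h1 | h1
      · exact h1
      · exfalso
        rw [hv2, val_zero_right, coeff_map, ← h1, hn, coeff_natDegree] at h0
        rcases mul_eq_zero.mp h0 with h2 | h2
        · rw [map_eq_zero] at h2
          exact hB (leadingCoeff_eq_zero.mp h2)
        · exact absurd h2 (pow_ne_zero _ hv1)
    have hnn : (re B).natDegree ≤ n := natDegree_map_le
    have h1 : val (re B) n v₀.1 v₀.2 ≠ 0 := by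
      rw [hv2, val_zero_right, coeff_map, hn, coeff_natDegree]
      refine mul_ne_zero ?_ (pow_ne_zero _ hv1)
      rw [Ne, map_eq_zero]
      exact leadingCoeff_ne_zero.mpr hB
    obtain ⟨δ, hδ, U, hU, h⟩ := lower_near (re B) n h1
    refine ⟨δ ^ 6, by positivity, U, hU, fun s t hst hs hne => ?_⟩
    have h2 := h s t hst hs
    rw [val_of_natDegree_le hnn hd] at hne ⊢
    have ht0 : t ≠ 0 := by
      rintro rfl
      apply hne
      rw [Int.cast_zero, zero_pow (by omega), zero_mul]
    have ht1 : (1 : ℝ) ≤ |(t : ℝ)| := by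
      have := Int.one_le_abs ht0
      exact_mod_cast this
    have hM1 := hM.1
    refine six_pow_le (n := n) (ht_ge_one hst) hδ.le (by omega) ?_ rfl
    rw [abs_mul, abs_pow]
    have h3 : (1 : ℝ) ≤ |(t : ℝ)| ^ (d - n) := one_le_pow₀ ht1
    calc δ * ht s t ^ n ≤ |val (re B) n (s : ℝ) (t : ℝ)| := h2
      _ = 1 * |val (re B) n (s : ℝ) (t : ℝ)| := (one_mul _).symm
      _ ≤ _ := mul_le_mul_of_nonneg_right h3 (abs_nonneg _)
  · -- a finite root
    set c : ℝ := v₀.1 / v₀.2 with hc
    have hdr : (re B).natDegree ≤ d := natDegree_map_le.trans hd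
    have hBc : aeval c B = 0 := by
      rw [val_of_ne_zero hdr _ hv2] at h0
      rcases mul_eq_zero.mp h0 with h1 | h1
      · rw [aeval_def, ← eval_map]; exact h1
      · exact absurd h1 (pow_ne_zero _ hv2)
    have halg : IsAlgebraic ℚ c := ⟨B, hB, hBc⟩
    have hint : IsIntegral ℚ c := halg.isIntegral
    set p : ℚ[X] := minpoly ℚ c with hp
    have hirr : Irreducible p := minpoly.irreducible hint
    have hpc : aeval c p = 0 := minpoly.aeval ℚ c
    obtain ⟨e, G, hpG, hBG⟩ := WfDvdMonoid.max_power_factor hB hirr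
    have hp0 : p ≠ 0 := hirr.ne_zero
    have hG0 : G ≠ 0 := by rintro rfl; exact hpG (dvd_zero _)
    have he : e ≠ 0 := by
      rintro rfl
      rw [pow_zero, one_mul] at hBG
      exact hpG (hBG ▸ minpoly.dvd ℚ c hBc)
    set m := p.natDegree with hm
    have hm1 : 0 < m := minpoly.natDegree_pos hint
    have hdeg : B.natDegree = e * m + G.natDegree := by
      rw [hBG, natDegree_mul (pow_ne_zero _ hp0) hG0, natDegree_pow]
    have hmild : Mild d m e := hM.2 p hirr ⟨c, hpc⟩ e ⟨G, hBG⟩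
    have hfac : ∀ s t : ℝ, val (re B) d s t = val (re p) m s t ^ e * val (re G) (d - e * m) s t := by
      intro s t
      have h1 : re B = re p ^ e * re G := by
        unfold re; rw [hBG, Polynomial.map_mul, Polynomial.map_pow]
      have h2 : d = e * m + (d - e * m) := by omega
      conv_lhs => rw [h2, h1]
      rw [val_mul, val_pow]
      · exact natDegree_map_le
      · exact natDegree_pow_le.trans (Nat.mul_le_mul_left _ natDegree_map_le)
      · exact natDegree_map_le.trans (by omega)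
    have hGc : val (re G) (d - e * m) v₀.1 v₀.2 ≠ 0 := by
      rw [val_of_ne_zero (natDegree_map_le.trans (by omega)) _ hv2]
      refine mul_ne_zero ?_ (pow_ne_zero _ hv2)
      intro h1
      apply hpG
      apply minpoly.dvd
      rw [aeval_def, ← eval_map]
      exact h1
    obtain ⟨δ, hδ, U, hU, h⟩ := lower_near (re G) (d - e * m) hGc
    by_cases hm2 : m ≤ 2
    · obtain ⟨D, hD, hDen⟩ := exists_den p m
      refine ⟨(D ^ e * δ) ^ 6, by positivity, U, hU, fun s t hst hs hne => ?_⟩
      rw [hfac] at hne ⊢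
      have h1 : val (re p) m (s : ℝ) (t : ℝ) ≠ 0 := by
        intro h2; rw [h2, zero_pow he, zero_mul] at hne; exact hne rfl
      have h2 := hDen s t h1
      have h3 := h s t hst hs
      have h4 := hmild.1 hm2
      refine six_pow_le (n := d - e * m) (ht_ge_one hst) (by positivity) ?_ ?_ rfl
      · have : m * e = e * m := mul_comm _ _
        omega
      · rw [abs_mul, abs_pow, mul_assoc]
        apply mul_le_mul (pow_le_pow_left₀ hD.le h2 e) h3 (by
          have := lt_of_lt_of_le one_pos (ht_ge_one hst); positivity) (by positivity)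
    · -- Roth
      have hm3 : 3 ≤ m := by omega
      have hirrc : Irrational c := by
        rintro ⟨q, hq⟩
        have h1 : m = 1 := by
          rw [hm, hp, ← hq]
          have := minpoly.eq_X_sub_C ℝ q
          rw [show ((q : ℝ)) = algebraMap ℚ ℝ q from rfl, this, natDegree_X_sub_C]
        omega
      have hroot : (re p).IsRoot c := by
        rw [IsRoot.def, eval_map, ← aeval_def]; exact hpc
      obtain ⟨p1, hp1⟩ := dvd_iff_isRoot.mpr hroot
      have hp1c : p1.eval c ≠ 0 := by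
        intro h1
        have h2 : (derivative (re p)).eval c = 0 := by
          rw [hp1, derivative_mul]; simp [h1]
        have h3 : aeval c (derivative p) = 0 := by
          rw [aeval_def, ← eval_map]
          rw [← derivative_map]
          exact h2
        have h4 : derivative p ≠ 0 := by
          intro h5
          have := derivative_eq_zero.mp h5
          omega
        have h6 : p.natDegree ≤ (derivative p).natDegree :=
          natDegree_le_natDegree (minpoly.degree_le_of_ne_zero ℚ c h4 h3)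
        have h7 := natDegree_derivative_lt (p := p) (by omega)
        omega
      have hp1deg : p1.natDegree ≤ m - 1 := by
        have h1 : (re p).natDegree = m := natDegree_map_eq_of_injective (algebraMap ℚ ℝ).injective p
        have h2 : p1 ≠ 0 := by rintro rfl; simp at hp1c
        rw [hp1, natDegree_mul (X_sub_C_ne_zero c) h2, natDegree_X_sub_C] at h1
        omega
      have hpfac : ∀ s t : ℝ, val (re p) m s t = (s - c * t) * val p1 (m - 1) s t := by
        intro s t
        have h2 : m = 1 + (m - 1) := by omega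
        conv_lhs => rw [h2, hp1]
        rw [val_mul (by rw [natDegree_X_sub_C]) hp1deg]
        congr 1
        rw [val_eq_sum, Finset.sum_range_succ, Finset.sum_range_one]
        simp [coeff_X, coeff_C]
        ring
      have hp1v : val p1 (m - 1) v₀.1 v₀.2 ≠ 0 := by
        rw [val_of_ne_zero hp1deg _ hv2]
        exact mul_ne_zero hp1c (pow_ne_zero _ hv2)
      obtain ⟨δ1, hδ1, U1, hU1, h1⟩ := lower_near p1 (m - 1) hp1v
      obtain ⟨c₀, hc₀, hroth⟩ := roth_linear halg hirrc e he
      refine ⟨c₀ * (δ1 ^ (6 * e) * δ ^ 6), by positivity, U ∩ U1, Filter.inter_mem hU hU1,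
        fun s t hst hs _ => ?_⟩
      have hH1 := ht_ge_one hst
      set H := ht s t with hH
      have hH0 : 0 < H := lt_of_lt_of_le one_pos hH1
      have h3 := h s t hst hs.1
      have h4 := h1 s t hst hs.2
      have h5 := hroth s t hst
      have h12 := hmild.2 hm3 he
      rw [hfac, hpfac]
      rw [← mul_le_mul_iff_right₀ (pow_pos hH0 (6 * e + 1))]
      have h6 : |((s : ℝ) - c * t) * val p1 (m - 1) (s : ℝ) (t : ℝ)| = |(s : ℝ) - c * t| * |val p1 (m - 1) (s : ℝ) (t : ℝ)| :=
        abs_mul _ _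
      rw [abs_mul, abs_pow, h6]
      calc H ^ (6 * e + 1) * (c₀ * (δ1 ^ (6 * e) * δ ^ 6) * H ^ d)
          = c₀ * (δ1 ^ (6 * e) * δ ^ 6) * H ^ (6 * e + 1 + d) := by rw [pow_add]; ring
        _ ≤ c₀ * (δ1 ^ (6 * e) * δ ^ 6) * H ^ (6 * e * (m - 1) + 6 * (d - e * m)) := by
            apply mul_le_mul_of_nonneg_left _ (by positivity)
            apply pow_le_pow_right₀ hH1
            have e1 : 6 * e * (m - 1) + 6 * e = 6 * (e * m) := by
              obtain ⟨r, hr⟩ : ∃ r, m = r + 1 := ⟨m - 1, by omega⟩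
              rw [hr]; simp; ring
            omega
        _ = c₀ * ((δ1 * H ^ (m - 1)) ^ (6 * e) * (δ * H ^ (d - e * m)) ^ 6) := by
            rw [mul_pow, mul_pow, ← pow_mul, ← pow_mul, pow_add, mul_comm (m - 1) (6 * e),
              mul_comm (d - e * m) 6]
            ring
        _ ≤ (H ^ (6 * e + 1) * |(s : ℝ) - c * t| ^ (6 * e)) *
            (|val p1 (m - 1) (s : ℝ) (t : ℝ)| ^ (6 * e) * |val (re G) (d - e * m) (s : ℝ) (t : ℝ)| ^ 6) := by
            apply mul_le_mul h5 _ (by positivity) (by positivity)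
            apply mul_le_mul (pow_le_pow_left₀ (by positivity) h4 _) (pow_le_pow_left₀ (by positivity) h3 _)
              (by positivity) (by positivity)
        _ = H ^ (6 * e + 1) * ((|(s : ℝ) - c * t| * |val p1 (m - 1) (s : ℝ) (t : ℝ)|) ^ e *
            |val (re G) (d - e * m) (s : ℝ) (t : ℝ)|) ^ 6 := by
            rw [mul_pow _ _ 6, ← pow_mul, mul_pow _ _ (e * 6), mul_comm e 6]
            ring

/-- The key inequality. -/
theorem key {B : ℚ[X]} (hB : B ≠ 0) {d : ℕ} (hd : B.natDegree ≤ d) (hM : MildForm B d) :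
    ∃ a : ℝ, 0 < a ∧ ∀ s t : ℤ, ¬ (s = 0 ∧ t = 0) →
      val (re B) d (s : ℝ) (t : ℝ) ≠ 0 → a * ht s t ^ d ≤ |val (re B) d (s : ℝ) (t : ℝ)| ^ 6 := by
  have h := isCompact_KK.induction_on (p := fun S : Set (ℝ × ℝ) => ∃ a : ℝ, 0 < a ∧ ∀ s t : ℤ, ¬ (s = 0 ∧ t = 0) →
      nv s t ∈ S → val (re B) d (s : ℝ) (t : ℝ) ≠ 0 → a * ht s t ^ d ≤ |val (re B) d (s : ℝ) (t : ℝ)| ^ 6)
    ⟨1, one_pos, fun s t _ h => absurd h (Set.notMem_empty _)⟩
    (fun S T hST ⟨a, ha, h⟩ => ⟨a, ha, fun s t hst hs => h s t hst (hST hs)⟩)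
    (fun S T ⟨a, ha, h⟩ ⟨b, hb, h'⟩ => by
      refine ⟨min a b, lt_min ha hb, fun s t hst hs hne => ?_⟩
      have hH0 : 0 < ht s t ^ d := pow_pos (lt_of_lt_of_le one_pos (ht_ge_one hst)) d
      rcases hs with hs | hs
      · exact (mul_le_mul_of_nonneg_right (min_le_left _ _) hH0.le).trans (h s t hst hs hne)
      · exact (mul_le_mul_of_nonneg_right (min_le_right _ _) hH0.le).trans (h' s t hst hs hne))
    (fun v hv => by
      obtain ⟨a, ha, U, hU, h⟩ := key_local hB hd hM hv
      exact ⟨U, mem_nhdsWithin_of_mem_nhds hU, a, ha, h⟩)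
  obtain ⟨a, ha, h⟩ := h
  exact ⟨a, ha, fun s t hst hne => h s t hst (nv_mem hst) hne⟩

end Pool.Agent.H19.FO
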