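import Pool.Agent.H19.FO.Basic
import Pool.Graph.R_seed8.W472.AC.RothThm

/-!
# Lower bounds for the values of binary forms at integers, by Roth's theorem
-/

namespace Pool.Agent.H19.FO

open Polynomial

/-- The height of a pair of integers. -/
def ht (s t : ℤ) : ℝ := max |(s : ℝ)| |(t : ℝ)|

lemma ht_ge_one {s t : ℤ} (h : ¬ (s = 0 ∧ t = 0)) : 1 ≤ ht s t := by
  unfold ht
  by_cases hs : s = 0
  · have ht : t ≠ 0 := fun h' => h ⟨hs, h'⟩
    have : (1 : ℤ) ≤ |t| := Int.one_le_abs ht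
    exact le_max_of_le_right (by exact_mod_cast this)
  · have : (1 : ℤ) ≤ |s| := Int.one_le_abs hs
    exact le_max_of_le_left (by exact_mod_cast this)

/-- The compact set of normalised vectors. -/
def KK : Set (ℝ × ℝ) := {v | max |v.1| |v.2| = 1}

lemma isCompact_KK : IsCompact KK := by
  apply Metric.isCompact_of_isClosed_isBounded
  · apply isClosed_eq <;> fun_prop
  · rw [Metric.isBounded_iff_subset_closedBall (0 : ℝ × ℝ)]
    refine ⟨1, fun v hv => ?_⟩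
    rw [Metric.mem_closedBall, dist_zero_right, Prod.norm_def, Real.norm_eq_abs, Real.norm_eq_abs]
    exact le_of_eq hv

/-- The normalised vector. -/
noncomputable def nv (s t : ℤ) : ℝ × ℝ := ((s : ℝ) / ht s t, (t : ℝ) / ht s t)

lemma nv_mem {s t : ℤ} (h : ¬ (s = 0 ∧ t = 0)) : nv s t ∈ KK := by
  have h1 : 0 < ht s t := lt_of_lt_of_le one_pos (ht_ge_one h)
  change max |(s : ℝ) / ht s t| |(t : ℝ) / ht s t| = 1
  have h2 : max (|(s : ℝ)| / ht s t) (|(t : ℝ)| / ht s t) = max |(s : ℝ)| |(t : ℝ)| / ht s t :=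
    max_div_div_right h1.le _ _
  rw [abs_div, abs_div, abs_of_pos h1, h2]
  exact div_self h1.ne'

lemma val_eq_nv (P : ℝ[X]) (d : ℕ) {s t : ℤ} (h : ¬ (s = 0 ∧ t = 0)) :
    val P d (s : ℝ) (t : ℝ) = ht s t ^ d * val P d (nv s t).1 (nv s t).2 := by
  have h1 : ht s t ≠ 0 := (lt_of_lt_of_le one_pos (ht_ge_one h)).ne'
  rw [← val_smul_smul]
  unfold nv
  simp only
  rw [mul_div_cancel₀ _ h1, mul_div_cancel₀ _ h1]

/-- Near a vector where a form does not vanish, its values are as large as possible. -/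
lemma lower_near (P : ℝ[X]) (d : ℕ) {v₀ : ℝ × ℝ} (h0 : val P d v₀.1 v₀.2 ≠ 0) :
    ∃ δ : ℝ, 0 < δ ∧ ∃ U ∈ nhds v₀, ∀ s t : ℤ, ¬ (s = 0 ∧ t = 0) → nv s t ∈ U →
      δ * ht s t ^ d ≤ |val P d (s : ℝ) (t : ℝ)| := by
  have hc : Continuous fun v : ℝ × ℝ => |val P d v.1 v.2| := (continuous_val P d).abs
  have hpos : 0 < |val P d v₀.1 v₀.2| := abs_pos.mpr h0
  refine ⟨|val P d v₀.1 v₀.2| / 2, by positivity,
    {v : ℝ × ℝ | |val P d v₀.1 v₀.2| / 2 < |val P d v.1 v.2|}, ?_, ?_⟩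
  · apply IsOpen.mem_nhds
    · exact isOpen_lt continuous_const hc
    · change |val P d v₀.1 v₀.2| / 2 < |val P d v₀.1 v₀.2|; linarith
  · intro s t hst hU
    rw [val_eq_nv P d hst, abs_mul, mul_comm]
    have h1 : 0 < ht s t ^ d := pow_pos (lt_of_lt_of_le one_pos (ht_ge_one hst)) d
    rw [abs_of_pos h1]
    exact mul_le_mul_of_nonneg_left (le_of_lt hU) h1.le

/-- The local condition on a form of degree `d`, for an irreducible factor of degree `m` and multiplicity `e`. -/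
def Mild (d m e : ℕ) : Prop := (m ≤ 2 → 6 * (m * e) ≤ 5 * d) ∧ (3 ≤ m → e ≠ 0 → 12 * e < 5 * d)

/-- A form with rational coefficients which does not vanish at an integral vector. -/
lemma exists_den (p : ℚ[X]) (m : ℕ) : ∃ D : ℝ, 0 < D ∧ ∀ s t : ℤ,
    val (p.map (algebraMap ℚ ℝ)) m (s : ℝ) (t : ℝ) ≠ 0 →
      D ≤ |val (p.map (algebraMap ℚ ℝ)) m (s : ℝ) (t : ℝ)| := by
  obtain ⟨q, D, hD, hq⟩ := exists_int_multiple p
  have hDr : (0 : ℝ) < |(D : ℝ)| := abs_pos.mpr (by exact_mod_cast hD)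
  refine ⟨1 / |(D : ℝ)|, by positivity, fun s t hst => ?_⟩
  have h1 : ((val q m s t : ℤ) : ℝ) = D * val (p.map (algebraMap ℚ ℝ)) m (s : ℝ) (t : ℝ) := by
    have h2 := map_val (Int.castRingHom ℝ) q m s t
    have h3 : q.map (Int.castRingHom ℝ) = C (D : ℝ) * p.map (algebraMap ℚ ℝ) := by
      have h4 := congrArg (Polynomial.map (algebraMap ℚ ℝ)) hq
      rw [Polynomial.map_map, Polynomial.map_mul, Polynomial.map_C] at h4
      have h5 : (algebraMap ℚ ℝ).comp (Int.castRingHom ℚ) = Int.castRingHom ℝ := Subsingleton.elim _ _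
      rw [h5] at h4
      simpa using h4
    rw [h3, val_C_mul] at h2
    simpa using h2
  have h6 : val q m s t ≠ 0 := by
    intro h0
    rw [h0] at h1
    have h7 : (D : ℝ) * val (p.map (algebraMap ℚ ℝ)) m (s : ℝ) (t : ℝ) = 0 := by rw [← h1]; simp
    rcases mul_eq_zero.mp h7 with h8 | h8
    · exact hD (by exact_mod_cast h8)
    · exact hst h8
  have h9 : (1 : ℝ) ≤ |((val q m s t : ℤ) : ℝ)| := by
    have := Int.one_le_abs h6
    exact_mod_cast this
  rw [h1, abs_mul] at h9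
  rw [div_le_iff₀' hDr]
  exact h9

/-- Roth's theorem for a linear form. -/
lemma roth_linear {c : ℝ} (hc : IsAlgebraic ℚ c) (hirr : Irrational c) (e : ℕ) (he : e ≠ 0) :
    ∃ c₀ : ℝ, 0 < c₀ ∧ ∀ s t : ℤ, ¬ (s = 0 ∧ t = 0) →
      c₀ ≤ ht s t ^ (6 * e + 1) * |(s : ℝ) - c * t| ^ (6 * e) := by
  have hη : (0 : ℝ) < 1 / (6 * e) := by
    have : (0 : ℝ) < e := by exact_mod_cast Nat.pos_of_ne_zero he
    positivity
  obtain ⟨c₀, h0, h⟩ := Pool.Agent.W472.AC.roth c hc hirr _ hη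
  refine ⟨min (c₀ ^ (6 * e)) 1, lt_min (by positivity) one_pos, fun s t hst => ?_⟩
  have hH1 := ht_ge_one hst
  have hH0 : 0 < ht s t := lt_of_lt_of_le one_pos hH1
  by_cases ht0 : t = 0
  · have hs : s ≠ 0 := fun h' => hst ⟨h', ht0⟩
    have h1 : (1 : ℝ) ≤ |(s : ℝ)| := by
      have := Int.one_le_abs hs
      exact_mod_cast this
    refine (min_le_right _ _).trans ?_
    rw [ht0]
    simp only [Int.cast_zero, mul_zero, sub_zero]
    have h2 : (1 : ℝ) ≤ |(s : ℝ)| ^ (6 * e) := one_le_pow₀ h1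
    have h3 : (1 : ℝ) ≤ ht s 0 ^ (6 * e + 1) := one_le_pow₀ (by rw [← ht0]; exact hH1)
    nlinarith
  · refine (min_le_left _ _).trans ?_
    have hq1 : 1 ≤ t.natAbs := Nat.one_le_iff_ne_zero.mpr (by simpa using ht0)
    -- choose the sign
    obtain ⟨p, hp⟩ : ∃ p : ℤ, |((t.natAbs : ℕ) : ℝ) * c - p| = |(s : ℝ) - c * t| := by
      rcases le_total 0 t with h1 | h1
      · refine ⟨s, ?_⟩
        have h2 : ((t.natAbs : ℕ) : ℝ) = (t : ℝ) := by
          rw [Nat.cast_natAbs, abs_of_nonneg h1]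
        rw [h2, abs_sub_comm]; ring_nf
      · refine ⟨-s, ?_⟩
        have h2 : ((t.natAbs : ℕ) : ℝ) = -(t : ℝ) := by
          rw [Nat.cast_natAbs, abs_of_nonpos h1]; push_cast; rfl
        rw [h2]; push_cast; ring_nf
    have h3 := h t.natAbs hq1 p
    rw [hp] at h3
    have hq : ((t.natAbs : ℕ) : ℝ) ≤ ht s t := by
      have : ((t.natAbs : ℕ) : ℝ) = |(t : ℝ)| := by
        rw [Nat.cast_natAbs]; simp
      rw [this]; exact le_max_right _ _
    have h4 : c₀ ≤ ht s t ^ (1 + 1 / (6 * (e : ℝ))) * |(s : ℝ) - c * t| := by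
      refine h3.trans (mul_le_mul_of_nonneg_right ?_ (abs_nonneg _))
      exact Real.rpow_le_rpow (by positivity) hq (by positivity)
    have h5 : c₀ ^ (6 * e) ≤ (ht s t ^ (1 + 1 / (6 * (e : ℝ))) * |(s : ℝ) - c * t|) ^ (6 * e) :=
      pow_le_pow_left₀ h0.le h4 _
    rw [mul_pow] at h5
    have h6 : (ht s t ^ (1 + 1 / (6 * (e : ℝ)))) ^ (6 * e) = ht s t ^ (6 * e + 1) := by
      rw [← Real.rpow_natCast, ← Real.rpow_mul hH0.le, ← Real.rpow_natCast]
      congr 1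
      have : (e : ℝ) ≠ 0 := by exact_mod_cast he
      push_cast
      field_simp
    rw [h6] at h5
    exact h5

end Pool.Agent.H19.FO
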